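import Mathlib

set_option autoImplicit false

open Metric Filter Topology InnerProductSpace

namespace Pool.Agent.Results.MP_784777_an.MinimalNotSpectral

/-- Subharmonic functions on `ℂ`, with values in `[-∞, ∞)`: upper semicontinuous functions with the
sub-mean-value inequality on every circle.  The mean over the circle of an upper semicontinuous
function is the infimum of the means of its continuous real majorants, so the inequality is
required against every continuous real majorant `φ` of `w` on the circle. -/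
structure Subharmonic (w : ℂ → EReal) : Prop where
  usc : UpperSemicontinuous w
  lt_top : ∀ z, w z < ⊤
  submean : ∀ (c : ℂ) (r : ℝ), 0 < r → ∀ φ : ℂ → ℝ, Continuous φ →
    (∀ z ∈ sphere c r, w z ≤ (φ z : EReal)) → w c ≤ ((Real.circleAverage φ c r : ℝ) : EReal)

/-- The class `U[ρ]`. -/
structure IsU (ρ : ℝ) (v : ℂ → EReal) : Prop where
  sub : Subharmonic v
  zero : v 0 = 0
  growth : ∃ σ : ℝ, 0 < σ ∧ ∀ z, v z ≤ ((σ * ‖z‖ ^ ρ : ℝ) : EReal)

/-- `v` is minimal in `U[ρ]`. -/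
def Minimal (ρ : ℝ) (v : ℂ → EReal) : Prop :=
  ∀ ε : ℝ, 0 < ε → ¬ ∃ w : ℂ → EReal, IsU ρ w ∧ ∀ z, w z ≤ v z - ((ε * ‖z‖ ^ ρ : ℝ) : EReal)

/-- Super-mean-value (superharmonicity) of a real function on a set `Ω`, in its local form. -/
def SuperharmonicOn (b : ℂ → ℝ) (Ω : Set ℂ) : Prop :=
  ∀ p ∈ Ω, ∃ r₀ : ℝ, 0 < r₀ ∧ closedBall p r₀ ⊆ Ω ∧ ∀ r : ℝ, 0 < r → r ≤ r₀ →
    Real.circleAverage b p r ≤ b p

/-- A boundary point `q` of the open set `D` is regular for the Dirichlet problem for the Laplacian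
iff there is a barrier at `q`. -/
def RegularPt (D : Set ℂ) (q : ℂ) : Prop :=
  ∃ (N : Set ℂ) (b : ℂ → ℝ), IsOpen N ∧ q ∈ N ∧ ContinuousOn b (D ∩ N) ∧ SuperharmonicOn b (D ∩ N) ∧
    (∀ p ∈ D ∩ N, 0 < b p) ∧ Tendsto b (𝓝[D ∩ N] q) (𝓝 0) ∧
    ∀ N' : Set ℂ, IsOpen N' → q ∈ N' → ∃ δ : ℝ, 0 < δ ∧ ∀ p ∈ (D ∩ N) \ N', δ ≤ b p

/-- Problem (1) for the open set `D` of the cylinder `ℝ × (ℝ/2πℤ)`.  Points `(x,y)` are written as
`ζ = x + iy`, open subsets of the cylinder as `2πi`-periodic open subsets of `ℂ` and functions on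
them as `2πi`-periodic functions.  The equation `L_λ r = e^{-λx} Δ (e^{λx} r) = 0` says that
`e^{λx} r` is harmonic in `D`.  The solution is nontrivial if it does not vanish on `D`. -/
def NontrivialSolution (D : Set ℂ) (lam : ℝ) (r : ℂ → ℝ) : Prop :=
  (∀ ζ ∈ D, r (ζ + 2 * Real.pi * Complex.I) = r ζ) ∧
  (∃ C : ℝ, ∀ ζ ∈ D, |r ζ| ≤ C) ∧
  HarmonicOnNhd (fun ζ : ℂ => Real.exp (lam * ζ.re) * r ζ) D ∧
  (∀ q ∈ frontier D, RegularPt D q → Tendsto r (𝓝[D] q) (𝓝 0)) ∧
  ∃ ζ ∈ D, r ζ ≠ 0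

/-- `λ(D)`: the infimum of the `λ > 0` for which (1) has a nontrivial solution, `+∞` if there is
none. -/
noncomputable def lamD (D : Set ℂ) : EReal :=
  sInf {l : EReal | ∃ lam : ℝ, 0 < lam ∧ l = (lam : EReal) ∧ ∃ r, NontrivialSolution D lam r}

/-- `H(v)`: the largest open set on which `v` is harmonic. -/
def H (v : ℂ → EReal) : Set ℂ :=
  {z | ∃ N : Set ℂ, IsOpen N ∧ z ∈ N ∧ ∃ h : ℂ → ℝ, HarmonicOnNhd h N ∧ ∀ ζ ∈ N, v ζ = (h ζ : EReal)}

/-- `Ĥ(v) = {ζ : e^ζ ∈ H(v)}`. -/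
def Hhat (v : ℂ → EReal) : Set ℂ := {ζ | Complex.exp ζ ∈ H v}

/-- `λ(v) = λ(Ĥ(v))`. -/
noncomputable def lamV (v : ℂ → EReal) : EReal := lamD (Hhat v)

/-! ### the example -/

noncomputable def u (ρ : ℝ) (z : ℂ) : ℝ := Real.log (1 + ‖z‖ ^ ρ)

lemma u_nonneg (ρ : ℝ) (z : ℂ) : 0 ≤ u ρ z := by
  apply Real.log_nonneg
  have : 0 ≤ ‖z‖ ^ ρ := Real.rpow_nonneg (norm_nonneg _) _
  linarith

lemma u_cont (ρ : ℝ) (hρ : 0 < ρ) : Continuous (u ρ) := by
  unfold u
  apply Continuous.log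
  · exact continuous_const.add (continuous_norm.rpow_const fun _ => Or.inr hρ.le)
  · intro z
    have : 0 ≤ ‖z‖ ^ ρ := Real.rpow_nonneg (norm_nonneg _) _
    linarith

/-- support function: `A + B log ‖z‖` -/
noncomputable def cB (ρ : ℝ) (c : ℂ) : ℝ := (‖c‖ ^ ρ / (1 + ‖c‖ ^ ρ)) * ρ
noncomputable def cA (ρ : ℝ) (c : ℂ) : ℝ := Real.log (1 + ‖c‖ ^ ρ) - cB ρ c * Real.log ‖c‖
noncomputable def L (ρ : ℝ) (c z : ℂ) : ℝ := cA ρ c + cB ρ c • Real.log ‖z - 0‖

lemma L_le (ρ : ℝ) (c z : ℂ) (hc : c ≠ 0) (hz : z ≠ 0) : L ρ c z ≤ u ρ z := by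
  unfold L u cA cB
  rw [sub_zero, smul_eq_mul]
  have hX0 : 0 < ‖c‖ ^ ρ := Real.rpow_pos_of_pos (norm_pos_iff.mpr hc) _
  have hX : 0 < ‖z‖ ^ ρ := Real.rpow_pos_of_pos (norm_pos_iff.mpr hz) _
  have e1 : ρ * Real.log ‖z‖ = Real.log (‖z‖ ^ ρ) := by rw [Real.log_rpow (norm_pos_iff.mpr hz)]
  have e2 : ρ * Real.log ‖c‖ = Real.log (‖c‖ ^ ρ) := by rw [Real.log_rpow (norm_pos_iff.mpr hc)]
  rw [mul_assoc, mul_assoc, e1, e2]
  set X := ‖z‖ ^ ρ
  set X0 := ‖c‖ ^ ρ
  have hXX : 0 < X / X0 := by positivity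
  have hconc := strictConcaveOn_log_Ioi.concaveOn.2 (show (1:ℝ) ∈ Set.Ioi 0 by simp)
    (show X / X0 ∈ Set.Ioi (0:ℝ) from hXX) (show 0 ≤ 1 / (1 + X0) by positivity)
    (show 0 ≤ X0 / (1 + X0) by positivity) (by field_simp)
  simp only [smul_eq_mul, Real.log_one, mul_zero, zero_add, mul_one] at hconc
  rw [Real.log_div hX.ne' hX0.ne'] at hconc
  have e3 : 1 / (1 + X0) + X0 / (1 + X0) * (X / X0) = (1 + X) / (1 + X0) := by field_simp
  rw [e3, Real.log_div (by positivity) (by positivity)] at hconc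
  linarith

lemma L_lt (ρ : ℝ) (hρ : 0 < ρ) (c z : ℂ) (hc : c ≠ 0) (hz : z ≠ 0) (hcz : ‖c‖ < ‖z‖) : L ρ c z < u ρ z := by
  unfold L u cA cB
  rw [sub_zero, smul_eq_mul]
  have hX0 : 0 < ‖c‖ ^ ρ := Real.rpow_pos_of_pos (norm_pos_iff.mpr hc) _
  have hX : 0 < ‖z‖ ^ ρ := Real.rpow_pos_of_pos (norm_pos_iff.mpr hz) _
  have hlt : ‖c‖ ^ ρ < ‖z‖ ^ ρ := Real.rpow_lt_rpow (norm_nonneg _) hcz hρ
  have e1 : ρ * Real.log ‖z‖ = Real.log (‖z‖ ^ ρ) := by rw [Real.log_rpow (norm_pos_iff.mpr hz)]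
  have e2 : ρ * Real.log ‖c‖ = Real.log (‖c‖ ^ ρ) := by rw [Real.log_rpow (norm_pos_iff.mpr hc)]
  rw [mul_assoc, mul_assoc, e1, e2]
  set X := ‖z‖ ^ ρ
  set X0 := ‖c‖ ^ ρ
  have hne : (1:ℝ) ≠ X / X0 := by
    intro h
    rw [eq_div_iff hX0.ne'] at h
    linarith
  have hXX : 0 < X / X0 := by positivity
  have hconc := strictConcaveOn_log_Ioi.2 (show (1:ℝ) ∈ Set.Ioi 0 by simp)
    (show X / X0 ∈ Set.Ioi (0:ℝ) from hXX) hne (show 0 < 1 / (1 + X0) by positivity)
    (show 0 < X0 / (1 + X0) by positivity) (by field_simp)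
  simp only [smul_eq_mul, Real.log_one, mul_zero, zero_add, mul_one] at hconc
  rw [Real.log_div hX.ne' hX0.ne'] at hconc
  have e3 : 1 / (1 + X0) + X0 / (1 + X0) * (X / X0) = (1 + X) / (1 + X0) := by field_simp
  rw [e3, Real.log_div (by positivity) (by positivity)] at hconc
  linarith

lemma log_int (c : ℂ) (r : ℝ) : CircleIntegrable (fun z : ℂ => Real.log ‖z - 0‖) c r :=
  circleIntegrable_log_norm_sub_const (a := 0) (c := c) r

lemma L_int (ρ : ℝ) (c : ℂ) (c' : ℂ) (r : ℝ) : CircleIntegrable (L ρ c) c' r := by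
  unfold L
  exact (circleIntegrable_const _ _ _).add ((log_int c' r).const_smul (a := cB ρ c))

lemma L_avg (ρ : ℝ) (c : ℂ) (r : ℝ) :
    Real.circleAverage (L ρ c) c r = cA ρ c + cB ρ c * Real.circleAverage (fun z : ℂ => Real.log ‖z - 0‖) c r := by
  have h1 : L ρ c = (fun _ : ℂ => cA ρ c) + (cB ρ c • (fun z : ℂ => Real.log ‖z - 0‖)) := rfl
  rw [h1, Real.circleAverage_add (circleIntegrable_const _ _ _) ((log_int c r).const_smul (a := cB ρ c)),
    Real.circleAverage_const, Real.circleAverage_smul, smul_eq_mul]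

lemma cB_nonneg (ρ : ℝ) (hρ : 0 < ρ) (c : ℂ) : 0 ≤ cB ρ c := by
  unfold cB
  have : 0 ≤ ‖c‖ ^ ρ := Real.rpow_nonneg (norm_nonneg _) _
  positivity

lemma L_avg_ge (ρ : ℝ) (hρ : 0 < ρ) (c : ℂ) (hc : c ≠ 0) (r : ℝ) (hr : 0 < r) :
    u ρ c ≤ Real.circleAverage (L ρ c) c r := by
  rw [L_avg, circleAverage_log_norm_sub_const_eq_log_radius_add_posLog hr.ne']
  have h1 : Real.log ‖c‖ ≤ Real.log r + Real.posLog (r⁻¹ * ‖c - 0‖) := by
    have h2 : Real.log (r⁻¹ * ‖c‖) ≤ Real.posLog (r⁻¹ * ‖c - 0‖) := by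
      rw [sub_zero]; exact le_max_right _ _
    rw [Real.log_mul (by positivity) (norm_ne_zero_iff.mpr hc), Real.log_inv] at h2
    linarith
  have h3 := mul_le_mul_of_nonneg_left h1 (cB_nonneg ρ hρ c)
  unfold u cA
  linarith

lemma L_avg_eq (ρ : ℝ) (c : ℂ) (hc : c ≠ 0) (r : ℝ) (hr : 0 < r) (hrc : r < ‖c‖) :
    Real.circleAverage (L ρ c) c r = u ρ c := by
  rw [L_avg, circleAverage_log_norm_sub_const_eq_log_radius_add_posLog hr.ne']
  have h1 : Real.log ‖c‖ = Real.log r + Real.posLog (r⁻¹ * ‖c - 0‖) := by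
    rw [sub_zero, Real.posLog_eq_log (by
      rw [abs_of_nonneg (by positivity), inv_mul_eq_div, one_le_div hr]; exact hrc.le),
      Real.log_mul (by positivity) (norm_ne_zero_iff.mpr hc), Real.log_inv]
    ring
  unfold u cA
  rw [← h1]
  ring

/-- modified support function, with value 0 at 0 -/
noncomputable def L' (ρ : ℝ) (c z : ℂ) : ℝ := if z = 0 then 0 else L ρ c z

lemma L'_codis (ρ : ℝ) (c : ℂ) (r : ℝ) : L' ρ c =ᶠ[codiscreteWithin (sphere c |r|)] L ρ c := by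
  have : {z : ℂ | z ≠ 0} ∈ codiscreteWithin (sphere c |r|) := by
    apply codiscreteWithin_iff_locallyFiniteComplementWithin.2
    intro z hz
    refine ⟨Set.univ, univ_mem, ?_⟩
    apply Set.Finite.subset (Set.finite_singleton (0:ℂ))
    rintro x ⟨-, -, hx⟩
    simpa using hx
  filter_upwards [this] with z hz
  have : z ≠ 0 := hz
  simp [L', this]

lemma u_submean (ρ : ℝ) (hρ : 0 < ρ) (c : ℂ) (r : ℝ) (hr : 0 < r) : u ρ c ≤ Real.circleAverage (u ρ) c r := by
  by_cases hc : c = 0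
  · subst hc
    have h0 : u ρ 0 = 0 := by simp [u, Real.zero_rpow hρ.ne']
    rw [h0]
    exact Real.circleAverage_nonneg_of_nonneg fun z _ => u_nonneg ρ z
  · calc u ρ c ≤ Real.circleAverage (L ρ c) c r := L_avg_ge ρ hρ c hc r hr
      _ = Real.circleAverage (L' ρ c) c r := (Real.circleAverage_congr_codiscreteWithin (L'_codis ρ c r) hr.ne').symm
      _ ≤ Real.circleAverage (u ρ) c r := by
          apply Real.circleAverage_mono
          · exact (circleIntegrable_congr_codiscreteWithin (L'_codis ρ c r)).mpr (L_int ρ c c r)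
          · exact (u_cont ρ hρ).continuousOn.circleIntegrable'
          · intro z _
            unfold L'
            split_ifs with hz
            · exact u_nonneg ρ z
            · exact L_le ρ c z hc hz

lemma u_subharmonic (ρ : ℝ) (hρ : 0 < ρ) : Subharmonic (fun z => (u ρ z : EReal)) where
  usc := (continuous_coe_real_ereal.comp (u_cont ρ hρ)).upperSemicontinuous
  lt_top := fun z => EReal.coe_lt_top _
  submean := by
    intro c r hr φ hφ h
    rw [EReal.coe_le_coe_iff]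
    calc u ρ c ≤ Real.circleAverage (u ρ) c r := u_submean ρ hρ c r hr
      _ ≤ Real.circleAverage φ c r := by
          apply Real.circleAverage_mono
          · exact (u_cont ρ hρ).continuousOn.circleIntegrable'
          · exact hφ.continuousOn.circleIntegrable'
          · intro z hz
            rw [abs_of_pos hr] at hz
            exact EReal.coe_le_coe_iff.mp (h z hz)

lemma u_isU (ρ : ℝ) (hρ : 0 < ρ) : IsU ρ (fun z => (u ρ z : EReal)) where
  sub := u_subharmonic ρ hρ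
  zero := by simp [u, Real.zero_rpow hρ.ne']
  growth := by
    refine ⟨1, one_pos, fun z => ?_⟩
    rw [EReal.coe_le_coe_iff, one_mul]
    unfold u
    have h : 0 ≤ ‖z‖ ^ ρ := Real.rpow_nonneg (norm_nonneg _) _
    have := Real.log_le_sub_one_of_pos (show 0 < 1 + ‖z‖ ^ ρ by linarith)
    linarith

lemma u_minimal (ρ : ℝ) (hρ : 0 < ρ) : Minimal ρ (fun z => (u ρ z : EReal)) := by
  rintro ε hε ⟨w, hw, hle⟩
  -- choose a radius with log (1 + R^ρ) < ε R^ρ
  obtain ⟨X, hX1, hX⟩ : ∃ X : ℝ, 0 < X ∧ Real.log (1 + X) < ε * X := by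
    have h1 : Tendsto (fun x : ℝ => Real.log x / x) atTop (𝓝 0) := by
      have := Real.isLittleO_log_id_atTop.tendsto_div_nhds_zero
      simpa using this
    have h2 : ∀ᶠ x : ℝ in atTop, Real.log x / x < ε / 2 := h1.eventually (gt_mem_nhds (by positivity))
    obtain ⟨x, hx1, hx2⟩ := (h2.and (eventually_gt_atTop 2)).exists
    refine ⟨x - 1, by linarith, ?_⟩
    rw [div_lt_iff₀ (by linarith)] at hx1
    have : Real.log (1 + (x - 1)) = Real.log x := by congr 1; ring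
    rw [this]
    nlinarith
  set R : ℝ := X ^ (1/ρ) with hR
  have hR0 : 0 < R := Real.rpow_pos_of_pos hX1 _
  have hRρ : R ^ ρ = X := by
    rw [hR, ← Real.rpow_mul hX1.le, one_div_mul_cancel hρ.ne', Real.rpow_one]
  have h1 := hw.sub.submean 0 R hR0 (fun _ => Real.log (1 + X) - ε * X) continuous_const (by
    intro z hz
    have hz' : ‖z‖ = R := by simpa using hz
    refine (hle z).trans ?_
    show ((u ρ z : ℝ) : EReal) - _ ≤ _
    rw [hz', hRρ, ← EReal.coe_sub, EReal.coe_le_coe_iff]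
    unfold u
    rw [hz', hRρ])
  rw [hw.zero, Real.circleAverage_const] at h1
  have h2 : (0:ℝ) ≤ Real.log (1 + X) - ε * X := by exact_mod_cast h1
  linarith

lemma u_H (ρ : ℝ) (hρ : 0 < ρ) : H (fun z => (u ρ z : EReal)) = ∅ := by
  rw [Set.eq_empty_iff_forall_notMem]
  rintro z ⟨N, hN, hzN, h, hh, heq⟩
  -- a nonzero point of `N`
  obtain ⟨c, hcN, hc⟩ : ∃ c ∈ N, c ≠ 0 := by
    by_cases hz : z = 0
    · obtain ⟨δ, hδ, hball⟩ := Metric.isOpen_iff.mp hN z hzN
      refine ⟨((δ/2 : ℝ) : ℂ), hball ?_, ?_⟩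
      · rw [hz, mem_ball_zero_iff, Complex.norm_real, Real.norm_of_nonneg (by positivity)]
        linarith
      · exact_mod_cast (by positivity : (δ/2 : ℝ) ≠ 0)
    · exact ⟨z, hzN, hz⟩
  obtain ⟨δ, hδ, hball⟩ := Metric.isOpen_iff.mp hN c hcN
  set r := min (δ/2) (‖c‖/2) with hr
  have hc0 : 0 < ‖c‖ := norm_pos_iff.mpr hc
  have hr0 : 0 < r := by positivity
  have hrδ : r < δ := lt_of_le_of_lt (min_le_left _ _) (by linarith)
  have hrc : r < ‖c‖ := lt_of_le_of_lt (min_le_right _ _) (by linarith)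
  have hcb : closedBall c |r| ⊆ N := by
    rw [abs_of_pos hr0]
    exact (closedBall_subset_ball hrδ).trans hball
  have hmv : Real.circleAverage h c r = h c := InnerProductSpace.HarmonicOnNhd.circleAverage_eq (fun x hx => hh x (hcb hx))
  have hhu : ∀ x ∈ N, h x = u ρ x := fun x hx => by
    have := heq x hx
    exact (EReal.coe_eq_coe_iff.mp this).symm
  have hmv2 : Real.circleAverage (u ρ) c r = u ρ c := by
    rw [← hhu c hcN, ← hmv]
    apply Real.circleAverage_congr_sphere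
    intro x hx
    exact (hhu x (hcb (sphere_subset_closedBall hx))).symm
  have hLe := L_avg_eq ρ c hc r hr0 hrc
  -- the difference has zero average
  have hnz : ∀ x ∈ sphere c r, x ≠ 0 := by
    rintro x hx rfl
    rw [mem_sphere, dist_zero_left] at hx
    linarith
  have hint1 : CircleIntegrable (u ρ) c r := (u_cont ρ hρ).continuousOn.circleIntegrable'
  have hsub : Real.circleAverage (u ρ - L ρ c) c r = 0 := by
    rw [Real.circleAverage_sub hint1 (L_int ρ c c r), hmv2, hLe, sub_self]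
  set f : ℝ → ℝ := fun θ => (u ρ - L ρ c) (circleMap c r θ) with hf
  have hfc : Continuous f := by
    have h1 : Continuous fun θ => u ρ (circleMap c r θ) := (u_cont ρ hρ).comp (continuous_circleMap c r)
    have h2 : Continuous fun θ => L ρ c (circleMap c r θ) := by
      unfold L
      refine continuous_const.add (Continuous.const_smul ?_ (cB ρ c))
      apply Continuous.log
      · exact continuous_norm.comp ((continuous_circleMap c r).sub continuous_const)
      · intro θ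
        rw [sub_zero, norm_ne_zero_iff]
        exact hnz _ (circleMap_mem_sphere c hr0.le θ)
    exact h1.sub h2
  have hf0 : ∀ θ, 0 ≤ f θ := by
    intro θ
    have := L_le ρ c _ hc (hnz _ (circleMap_mem_sphere c hr0.le θ))
    simp only [hf, Pi.sub_apply]
    linarith
  have hI : ∫ θ in (0:ℝ)..(2 * Real.pi), f θ = 0 := by
    rw [Real.circleAverage_def, smul_eq_mul] at hsub
    rcases mul_eq_zero.mp hsub with h | h
    · exfalso
      have : (0:ℝ) < (2 * Real.pi)⁻¹ := by positivity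
      linarith
    · exact h
  -- but it is positive at the outer point
  obtain ⟨θ0, hθ0, hpos⟩ : ∃ θ0 ∈ Set.Icc (0:ℝ) (2 * Real.pi), 0 < f θ0 := by
    have hmem : c + (r / ‖c‖ : ℝ) * c ∈ sphere c r := by
      rw [mem_sphere, dist_eq_norm, add_sub_cancel_left, norm_mul, Complex.norm_real, Real.norm_of_nonneg (by positivity)]
      field_simp
    have hmem' : c + (r / ‖c‖ : ℝ) * c ∈ circleMap c r '' Set.Ioc 0 (2 * Real.pi) := by
      rw [image_circleMap_Ioc]
      rw [abs_of_pos hr0]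
      exact hmem
    obtain ⟨θ, hθ, hθe⟩ := hmem'
    refine ⟨θ, ⟨hθ.1.le, hθ.2⟩, ?_⟩
    have hn : ‖c‖ < ‖c + (r / ‖c‖ : ℝ) * c‖ := by
      have : c + (r / ‖c‖ : ℝ) * c = ((1 + r / ‖c‖ : ℝ) : ℂ) * c := by push_cast; ring
      rw [this, norm_mul, Complex.norm_real, Real.norm_of_nonneg (by positivity)]
      have : 0 < r / ‖c‖ := by positivity
      nlinarith
    have := L_lt ρ hρ c _ hc (hnz _ hmem) hn
    simp only [hf, Pi.sub_apply, hθe]
    linarith
  have hpos2 : 0 < ∫ θ in (0:ℝ)..(2 * Real.pi), f θ :=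
    intervalIntegral.integral_pos (by positivity) hfc.continuousOn (fun x _ => hf0 x) ⟨θ0, hθ0, hpos⟩
  linarith

lemma lamV_top (ρ : ℝ) (hρ : 0 < ρ) : lamV (fun z => (u ρ z : EReal)) = ⊤ := by
  unfold lamV lamD
  have : Hhat (fun z => (u ρ z : EReal)) = ∅ := by
    unfold Hhat
    rw [u_H ρ hρ]
    simp
  rw [this]
  have h2 : {l : EReal | ∃ lam : ℝ, 0 < lam ∧ l = (lam : EReal) ∧ ∃ r, NontrivialSolution ∅ lam r} = ∅ := by
    rw [Set.eq_empty_iff_forall_notMem]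
    rintro l ⟨lam, _, _, r, _, _, _, _, ζ, hζ, _⟩
    exact hζ
  rw [h2, sInf_empty]

/-- **MP_784777_an, Q1 is false for every `ρ > 0`.**  For every `ρ > 0` the real-valued, continuous,
non-negative radial function `v(z) = log (1 + |z|^ρ)` belongs to `U[ρ]` and is minimal, while
`λ(v) = +∞ > ρ`; so minimality is not equivalent to `λ(v) ≤ ρ`. -/
theorem result : ∀ ρ : ℝ, 0 < ρ →
    (∃ v : ℂ → EReal, IsU ρ v ∧ Minimal ρ v ∧ lamV v = ⊤ ∧
      v = fun z => ((Real.log (1 + ‖z‖ ^ ρ) : ℝ) : EReal)) ∧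
    ¬ (∀ v : ℂ → EReal, IsU ρ v → (Minimal ρ v ↔ lamV v ≤ (ρ : EReal))) := by
  intro ρ hρ
  refine ⟨⟨_, u_isU ρ hρ, u_minimal ρ hρ, lamV_top ρ hρ, rfl⟩, fun hall => ?_⟩
  have h := (hall _ (u_isU ρ hρ)).mp (u_minimal ρ hρ)
  rw [lamV_top ρ hρ] at h
  exact absurd h (by simp)

end Pool.Agent.Results.MP_784777_an.MinimalNotSpectral
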